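import Pool.Agent.K7.H61.RA.Final

set_option autoImplicit false

/-! # Random angles are realisable

For every dimension `d ≥ 2`, the probability that `n_d(m) = d m - C(d + 1, 2) - 1` independent uniform angles
in `(0, π)` are realisable by `m` points in `ℝ^d` tends to `1` as `m → ∞`. -/

namespace Pool.Agent.Results.MP_9f66b2_co.ProbabilityTendsToOne

open MeasureTheory ProbabilityTheory Filter Topology
open scoped ENNReal

/-- the tuple `θ` is realisable by `m` points in `ℝ^d`: every `θ i` is the angle at `v b` between `v a` and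
`v c` for some indices with `v a ≠ v b ≠ v c` -/
def Realisable (d m : ℕ) {n : ℕ} (θ : Fin n → ℝ) : Prop :=
  ∃ v : Fin m → EuclideanSpace ℝ (Fin d), ∀ i, ∃ a b c : Fin m, v a ≠ v b ∧ v c ≠ v b ∧
    EuclideanGeometry.angle (v a) (v b) (v c) = θ i

/-- the law of `n` independent angles, each uniformly distributed on `(0, π)` -/
noncomputable def law (n : ℕ) : Measure (Fin n → ℝ) :=
  Measure.pi fun _ : Fin n => cond volume (Set.Ioo 0 Real.pi)

/-- the probability that `n` random angles are realisable by `m` points in `ℝ^d` -/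
noncomputable def P (d m n : ℕ) : ℝ≥0∞ := law n {θ | Realisable d m θ}

/-- the number of degrees of freedom of `m` points in `ℝ^d` modulo similarities -/
def dof (d m : ℕ) : ℕ := d * m - (d + 1).choose 2 - 1

instance (n : ℕ) : IsProbabilityMeasure (law n) := by
  unfold law
  have : IsProbabilityMeasure (cond volume (Set.Ioo 0 Real.pi) : Measure ℝ) :=
    inferInstanceAs (IsProbabilityMeasure Pool.Agent.K7.H61.RA.unif)
  infer_instance

theorem realisable_of_finset {d m n : ℕ} (θ : Fin n → ℝ) (S : Finset (EuclideanSpace ℝ (Fin d))) (hS : S.card ≤ m)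
    (h : ∀ i, Pool.Agent.K7.H61.RA.RealIn (S : Set (EuclideanSpace ℝ (Fin d))) (θ i)) : Realisable d m θ := by
  have key : ∀ x ∈ S, ∃ i : Fin m, S.toList.getD i 0 = x := by
    intro x hx
    obtain ⟨j, hj, hjx⟩ := List.getElem_of_mem (Finset.mem_toList.2 hx)
    have hj' : j < m := by
      rw [Finset.length_toList] at hj
      omega
    exact ⟨⟨j, hj'⟩, by rw [← hjx]; exact List.getD_eq_getElem _ _ hj⟩
  refine ⟨fun i => S.toList.getD i 0, fun i => ?_⟩
  obtain ⟨x, hx, y, hy, z, hz, hxy, hzy, hang⟩ := h i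
  obtain ⟨a, ha⟩ := key x hx
  obtain ⟨b, hb⟩ := key y hy
  obtain ⟨c, hc⟩ := key z hz
  refine ⟨a, b, c, ?_, ?_, ?_⟩
  · simp only [ha, hb]; exact hxy
  · simp only [hc, hb]; exact hzy
  · simp only [ha, hb, hc]
    exact hang

/-- **Random angles are realisable with probability tending to one.** Let `d ≥ 2`. Then
`P(d, m, n_d(m)) → 1` as `m → ∞`, and the outer probability that the angles are not realisable tends to `0`. -/
theorem result (d : ℕ) (hd : 2 ≤ d) :
    Tendsto (fun m => P d m (dof d m)) atTop (𝓝 1) ∧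
    Tendsto (fun m => law (dof d m) {θ | ¬ Realisable d m θ}) atTop (𝓝 0) := by
  obtain ⟨K, rfl⟩ : ∃ K, d = K + 2 := ⟨d - 2, by omega⟩
  have h0 : Tendsto (fun m => law (dof (K + 2) m) {θ | ¬ Realisable (K + 2) m θ}) atTop (𝓝 0) := by
    rw [ENNReal.tendsto_nhds_zero]
    intro ε hε
    obtain ⟨ρ, hρ, hρε⟩ : ∃ ρ : ℝ, 0 < ρ ∧ ENNReal.ofReal ρ ≤ ε := by
      by_cases ht : ε = ⊤
      · exact ⟨1, one_pos, by rw [ht]; exact le_top⟩
      · exact ⟨ε.toReal, ENNReal.toReal_pos hε.ne' ht, ENNReal.ofReal_toReal_le⟩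
    obtain ⟨m₀, hm₀⟩ := Pool.Agent.K7.H61.RA.main K ρ hρ
    filter_upwards [eventually_ge_atTop m₀] with m hm
    refine le_trans ?_ ((hm₀ m hm).trans hρε)
    refine measure_mono fun θ hθ => ?_
    rintro ⟨S, hS1, hS2⟩
    exact hθ (realisable_of_finset θ S hS1 hS2)
  refine ⟨?_, h0⟩
  have h1 : ∀ m, 1 - law (dof (K + 2) m) {θ | ¬ Realisable (K + 2) m θ} ≤ P (K + 2) m (dof (K + 2) m) := by
    intro m
    rw [tsub_le_iff_right]
    have h2 : (Set.univ : Set (Fin (dof (K + 2) m) → ℝ)) ⊆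
        {θ | Realisable (K + 2) m θ} ∪ {θ | ¬ Realisable (K + 2) m θ} := by
      intro θ _
      by_cases h : Realisable (K + 2) m θ
      · exact Or.inl h
      · exact Or.inr h
    calc (1 : ℝ≥0∞) = law (dof (K + 2) m) Set.univ := measure_univ.symm
      _ ≤ law (dof (K + 2) m) ({θ | Realisable (K + 2) m θ} ∪ {θ | ¬ Realisable (K + 2) m θ}) := measure_mono h2
      _ ≤ P (K + 2) m (dof (K + 2) m) + law (dof (K + 2) m) {θ | ¬ Realisable (K + 2) m θ} :=
        measure_union_le _ _
  have h3 : Tendsto (fun m => 1 - law (dof (K + 2) m) {θ | ¬ Realisable (K + 2) m θ}) atTop (𝓝 (1 - 0)) :=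
    ENNReal.Tendsto.sub tendsto_const_nhds h0 (Or.inl ENNReal.one_ne_top)
  rw [tsub_zero] at h3
  exact tendsto_of_tendsto_of_tendsto_of_le_of_le h3 tendsto_const_nhds h1 (fun m => prob_le_one)

end Pool.Agent.Results.MP_9f66b2_co.ProbabilityTendsToOne
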